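import Mathlib
set_option autoImplicit false

/-! Coordinates for a finitely generated subgroup of `ℤ^m`, compatible with the real span. -/

namespace Pool.Agent.Y354.PT

open Matrix

/-- integral vectors independent over the integers are independent over the reals -/
theorem real_inj {d m : ℕ} (B : Matrix (Fin m) (Fin d) ℤ)
    (hinj : ∀ x : Fin d → ℤ, B *ᵥ x = 0 → x = 0) :
    ∀ x : Fin d → ℝ, (B.map (Int.castRingHom ℝ)) *ᵥ x = 0 → x = 0 := by
  classical
  intro x hx
  have hdet : (Bᵀ * B).det ≠ 0 := by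
    intro h0
    obtain ⟨v, hv, hv2⟩ := Matrix.exists_mulVec_eq_zero_iff.2 h0
    apply hv
    apply hinj
    have h1 : v ⬝ᵥ ((Bᵀ * B) *ᵥ v) = 0 := by rw [hv2, dotProduct_zero]
    rw [← Matrix.mulVec_mulVec, Matrix.dotProduct_mulVec, Matrix.vecMul_transpose] at h1
    exact dotProduct_self_eq_zero.1 h1
  have hdet2 : ((Bᵀ * B).map (Int.castRingHom ℝ)).det ≠ 0 := by
    have := (Int.castRingHom ℝ).map_det (Bᵀ * B)
    rw [RingHom.mapMatrix_apply] at this
    rw [← this]
    simpa using hdet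
  apply Matrix.eq_zero_of_mulVec_eq_zero hdet2
  rw [Matrix.map_mul, ← Matrix.mulVec_mulVec, hx, Matrix.mulVec_zero]

/-- a subgroup of `ℤ^m` generated by `n` elements has a coordinate map from `ℤ^d`, `d ≤ n`,
which extends to an injective real-linear map. -/
theorem exists_coords {m : ℕ} (S : Finset (Fin m → ℤ)) :
    ∃ (d : ℕ) (ι : (Fin d → ℤ) →+ (Fin m → ℤ)) (ιR : (Fin d → ℝ) →ₗ[ℝ] (Fin m → ℝ)),
      d ≤ S.card ∧ Function.Injective ι ∧ (∀ x, ιR x = 0 → x = 0) ∧
      (∀ c : Fin d → ℤ, ιR (fun i => (c i : ℝ)) = fun k => ((ι c k : ℤ) : ℝ)) ∧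
      (∀ z ∈ AddSubgroup.closure (S : Set (Fin m → ℤ)), ∃ c, ι c = z) := by
  classical
  set M : Submodule ℤ (Fin m → ℤ) := Submodule.span ℤ (S : Set (Fin m → ℤ)) with hM
  have hfree : Module.Free ℤ M := inferInstance
  have hfin : Module.Finite ℤ M := inferInstance
  let b : Module.Basis (Fin (Module.finrank ℤ M)) ℤ M := Module.finBasis ℤ M
  set d := Module.finrank ℤ M with hd
  have hdS : d ≤ S.card := finrank_span_finset_le_card (R := ℤ) S
  let B : Matrix (Fin m) (Fin d) ℤ := fun k i => (b i : Fin m → ℤ) k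
  have hB : ∀ x : Fin d → ℤ, B *ᵥ x = ((∑ i, x i • b i : M) : Fin m → ℤ) := by
    intro x
    funext k
    simp only [Matrix.mulVec, dotProduct, B]
    rw [Submodule.coe_sum, Finset.sum_apply]
    refine Finset.sum_congr rfl fun i _ => ?_
    simp [mul_comm]
  have hBinj : ∀ x : Fin d → ℤ, B *ᵥ x = 0 → x = 0 := by
    intro x hx
    rw [hB] at hx
    have h1 : (∑ i, x i • b i : M) = 0 := by
      apply Subtype.ext
      rw [hx]
      rfl
    have h2 := Fintype.linearIndependent_iff.1 b.linearIndependent x h1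
    funext i
    exact h2 i
  refine ⟨d, (Matrix.mulVecLin B).toAddMonoidHom, Matrix.mulVecLin (B.map (Int.castRingHom ℝ)),
    hdS, ?_, ?_, ?_, ?_⟩
  · rw [injective_iff_map_eq_zero]
    intro x hx
    exact hBinj x hx
  · intro x hx
    exact real_inj B hBinj x hx
  · intro c
    funext k
    simp only [Matrix.mulVecLin_apply, Matrix.mulVec, dotProduct, Matrix.map_apply]
    simp [Matrix.mulVec, dotProduct]
  · intro z hz
    have hz' : z ∈ M := by
      rw [← Submodule.mem_toAddSubgroup, hM, Submodule.span_int_eq_addSubgroupClosure]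
      exact hz
    refine ⟨fun i => b.repr ⟨z, hz'⟩ i, ?_⟩
    show B *ᵥ _ = z
    rw [hB, b.sum_repr]

end Pool.Agent.Y354.PT
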