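import Pool.Agent.H112R2.Main
import Pool.Agent.H137R2.Weak.Final
import Pool.Agent.Y354.PT.Basis
set_option autoImplicit false

/-! From a Bohr-set covering with few translates to few translates of a low-dimensional
convex coset progression: lift a popular piece and apply the weak Marton theorem. -/

namespace Pool.Agent.Y354.PT

open Finset H112
open scoped Pointwise

/-- the weak Marton theorem with arbitrary decidability -/
theorem weak_marton' {Γ : Type*} [AddCommGroup Γ] [d : DecidableEq Γ] {K : ℝ} {A : Finset Γ}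
    (hA : A.Nonempty) (hK : ((A + A).card : ℝ) ≤ K * (A.card : ℝ)) :
    ∃ (P : AddSubgroup Γ) (S T : Finset Γ), Finite P ∧
      (S.card : ℝ) ≤ 480 * Real.log K + 1 ∧ (T.card : ℝ) ≤ K ^ 185 ∧
      ∀ a ∈ A, ∃ t ∈ T, ∃ o : Γ, (∃ m : ℕ, Odd m ∧ m • o = 0) ∧
        a - t - o ∈ P ⊔ AddSubgroup.closure (S : Set Γ) := by
  have hd : d = (fun a b => Classical.propDecidable (a = b)) := Subsingleton.elim _ _
  subst hd
  obtain ⟨P, S, T, h1, h2, h3, h4, h5, h6, h7⟩ := H137.Weak.weak_marton hA hK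
  exact ⟨P, S, T, h1, h4, h6, h7⟩

/-- pigeonhole -/
theorem pigeon {α β : Type*} [DecidableEq β] {A : Finset α} {X : Finset β} {f : α → β}
    (hf : ∀ a ∈ A, f a ∈ X) (hA : A.Nonempty) :
    ∃ x ∈ X, A.card ≤ X.card * (A.filter (fun a => f a = x)).card ∧
      (A.filter (fun a => f a = x)).Nonempty := by
  have hX : X.Nonempty := by
    obtain ⟨a, ha⟩ := hA
    exact ⟨f a, hf a ha⟩
  obtain ⟨x, hx, hmax⟩ := X.exists_max_image (fun x => (A.filter (fun a => f a = x)).card) hX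
  have h1 : A.card ≤ X.card * (A.filter (fun a => f a = x)).card := by
    rw [Finset.card_eq_sum_card_fiberwise (f := f) (t := X) hf]
    exact Finset.sum_le_card_nsmul X _ _ hmax
  refine ⟨x, hx, h1, ?_⟩
  rw [← Finset.card_pos]
  by_contra h0
  push Not at h0
  have h2 : (A.filter (fun a => f a = x)).card = 0 := by omega
  rw [h2, mul_zero] at h1
  have := hA.card_pos
  omega

theorem LL_add' {m : ℕ} (N : Seminorm ℝ (Fin m → ℝ)) {a b : ℝ} {c d : Fin m → ℤ}
    (hc : c ∈ LL N a) (hd : d ∈ LL N b) : c + d ∈ LL N (a + b) := by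
  have h1 : (fun i => (((c + d) i : ℤ) : ℝ)) = (fun i => (c i : ℝ)) + (fun i => (d i : ℝ)) := by
    funext i; simp
  show N _ ≤ a + b
  rw [h1]
  exact (map_add_le_add N _ _).trans (add_le_add hc hd)

/-- an element of finite order of `ℤ^m × H` has zero first component -/
theorem fst_of_torsion {m : ℕ} {H : Type*} [AddCommGroup H] {z : (Fin m → ℤ) × H} {n : ℕ}
    (hn : n ≠ 0) (hz : n • z = 0) : z.1 = 0 := by
  have h1 : n • z.1 = 0 := congrArg Prod.fst hz
  exact (smul_eq_zero.1 h1).resolve_left hn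

variable {G : Type*} [AddCommGroup G]

theorem lift_cover [DecidableEq G] (S : Set (G →+ UnitAddCircle)) (hfin : (bohr S (1 / 6)).Finite)
    {A : Finset G} (hA : A.Nonempty) {K : ℝ} (hK : ((A + A).card : ℝ) ≤ K * A.card) {V : ℝ}
    (hsize : ((bohr S (1 / 6)).ncard : ℝ) ≤ V * A.card)
    {ρ : ℝ} (hρ0 : 0 < ρ) (hρ : ρ ≤ 1 / 12) {X : Finset G}
    (hX : ∀ a ∈ A, ∃ x ∈ X, a - x ∈ bohr S ρ)
    {m : ℕ} (N : Seminorm ℝ (Fin m → ℝ)) (ψ : (Fin m → ℤ) →+ G) (hN : ∀ x, N x = 0 → x = 0)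
    (h1 : ∀ c : Fin m → ℤ, N (fun i => (c i : ℝ)) < 1 / 2 → ∀ r : ℝ, 0 ≤ r →
        (ψ c ∈ bohr S r ↔ c ∈ LL N r))
    (h2 : ∀ x ∈ bohr S ρ, ∃ c ∈ LL N ρ, x - ψ c ∈ ann S) :
    ∃ (d : ℕ) (B : Set (Fin d → ℝ)) (ψ' : (Fin d → ℤ) →+ G) (H₀ : AddSubgroup G) (T : Finset G),
      (d : ℝ) ≤ 480 * Real.log (K * X.card) + 1 ∧ SymmBody B ∧ Finite H₀ ∧
      ({c : Fin d → ℤ | (fun i => (c i : ℝ)) ∈ B}.ncard * Nat.card H₀ : ℝ) ≤ V * A.card ∧
      (T.card : ℝ) ≤ (K * X.card) ^ 186 ∧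
      Covers B ψ' H₀ T A := by
  classical
  haveI hannfin : Finite (ann S) := ann_finite hfin
  have hApos : (0 : ℝ) < A.card := by exact_mod_cast hA.card_pos
  have hK1 : 1 ≤ K := by
    have h1 : (A.card : ℝ) ≤ (A + A).card := by
      exact_mod_cast Finset.card_le_card_add_right hA
    nlinarith
  -- the popular translate
  choose! f hfX hfb using hX
  obtain ⟨x, hxX, hAx, hAxne⟩ := pigeon (f := f) hfX hA
  set Ax := A.filter (fun a => f a = x) with hAxdef
  have hAxA : Ax ⊆ A := Finset.filter_subset _ _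
  have hAxb : ∀ a ∈ Ax, a - x ∈ bohr S ρ := by
    intro a ha
    rw [hAxdef, Finset.mem_filter] at ha
    rw [← ha.2]
    exact hfb a ha.1
  -- the lift
  have hlift : ∀ a : G, ∃ z : (Fin m → ℤ) × (ann S), a ∈ Ax →
      (z.1 ∈ LL N ρ ∧ ψ z.1 + (z.2 : G) = a - x) := by
    intro a
    by_cases ha : a ∈ Ax
    · obtain ⟨c, hc, hc2⟩ := h2 _ (hAxb a ha)
      exact ⟨(c, ⟨a - x - ψ c, hc2⟩), fun _ => ⟨hc, by simp⟩⟩
    · exact ⟨0, fun h => absurd h ha⟩
  choose g hg using hlift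
  let F : (Fin m → ℤ) × (ann S) →+ G := ψ.coprod (ann S).subtype
  have hF : ∀ z : (Fin m → ℤ) × (ann S), F z = ψ z.1 + (z.2 : G) := fun z => rfl
  have hFg : ∀ a ∈ Ax, F (g a) = a - x := fun a ha => (hg a ha).2
  have hginj : Set.InjOn g (Ax : Set G) := by
    intro a ha b hb hab
    have e1 := hFg a ha
    have e2 := hFg b hb
    rw [hab, e2] at e1
    exact (sub_left_injective e1).symm
  -- injectivity of `F`
  have hFinj : ∀ z w : (Fin m → ℤ) × (ann S), z.1 - w.1 ∈ LL N (4 * ρ) → F z = F w → z = w := by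
    intro z w hzw hFzw
    have hd2 : N (fun i => (((z.1 - w.1) i : ℤ) : ℝ)) < 1 / 2 := by
      have : N (fun i => (((z.1 - w.1) i : ℤ) : ℝ)) ≤ 4 * ρ := hzw
      linarith
    have hd3 : ψ (z.1 - w.1) ∈ ann S := by
      rw [map_sub]
      have : ψ z.1 - ψ w.1 = (w.2 : G) - (z.2 : G) := by
        rw [hF, hF] at hFzw
        rw [sub_eq_sub_iff_add_eq_add, hFzw, add_comm]
      rw [this]
      exact (ann S).sub_mem w.2.2 z.2.2
    have hd4 : z.1 - w.1 ∈ LL N 0 :=
      (h1 _ hd2 0 le_rfl).1 (bohr_zero_of_ann hd3 le_rfl)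
    have hd5 : z.1 = w.1 := sub_eq_zero.1 (LL_zero hN hd4)
    refine Prod.ext hd5 ?_
    rw [hF, hF, hd5] at hFzw
    exact Subtype.ext (add_left_cancel hFzw)
  set At : Finset ((Fin m → ℤ) × (ann S)) := Ax.image g with hAt
  have hAtne : At.Nonempty := hAxne.image g
  have hAtcard : At.card = Ax.card := Finset.card_image_of_injOn hginj
  have hAtmem : ∀ z ∈ At, ∃ a ∈ Ax, g a = z := fun z hz => Finset.mem_image.1 hz
  have hsumcard : (At + At).card ≤ (A + A).card := by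
    apply Finset.card_le_card_of_injOn (fun z => F z + (x + x))
    · intro z hz
      obtain ⟨u, hu, v, hv, rfl⟩ := Finset.mem_add.1 (Finset.mem_coe.1 hz)
      obtain ⟨a, ha, rfl⟩ := hAtmem u hu
      obtain ⟨b, hb, rfl⟩ := hAtmem v hv
      have : F (g a + g b) + (x + x) = a + b := by
        rw [map_add, hFg a ha, hFg b hb]; abel
      show F (g a + g b) + (x + x) ∈ ((A + A : Finset G) : Set G)
      rw [this]
      exact Finset.mem_coe.2 (Finset.add_mem_add (hAxA ha) (hAxA hb))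
    · intro z hz w hw hzw
      obtain ⟨u, hu, v, hv, rfl⟩ := Finset.mem_add.1 (Finset.mem_coe.1 hz)
      obtain ⟨a, ha, rfl⟩ := hAtmem u hu
      obtain ⟨b, hb, rfl⟩ := hAtmem v hv
      obtain ⟨u', hu', v', hv', rfl⟩ := Finset.mem_add.1 (Finset.mem_coe.1 hw)
      obtain ⟨a', ha', rfl⟩ := hAtmem u' hu'
      obtain ⟨b', hb', rfl⟩ := hAtmem v' hv'
      apply hFinj _ _ _ (add_right_cancel hzw)
      have e1 : (g a + g b).1 ∈ LL N (ρ + ρ) := LL_add' N (hg a ha).1 (hg b hb).1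
      have e2 : (g a' + g b').1 ∈ LL N (ρ + ρ) := LL_add' N (hg a' ha').1 (hg b' hb').1
      have e3 := LL_add N e1 e2
      have e4 : ρ + ρ + (ρ + ρ) = 4 * ρ := by ring
      rwa [e4] at e3
  have hXpos : 1 ≤ X.card := Finset.card_pos.2 ⟨x, hxX⟩
  have hK' : ((At + At).card : ℝ) ≤ (K * X.card) * (At.card : ℝ) := by
    have e1 : ((At + At).card : ℝ) ≤ (A + A).card := by exact_mod_cast hsumcard
    have e2 : (A.card : ℝ) ≤ X.card * Ax.card := by exact_mod_cast hAx
    calc ((At + At).card : ℝ) ≤ K * A.card := e1.trans hK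
      _ ≤ K * (X.card * Ax.card) := mul_le_mul_of_nonneg_left e2 (by linarith)
      _ = (K * X.card) * (At.card : ℝ) := by rw [hAtcard]; ring
  obtain ⟨P, S₀, T₀, hPfin, hS₀, hT₀, hcovt⟩ := weak_marton' hAtne hK'
  -- projections
  obtain ⟨d, ι, ιR, hdS, hιinj, hιR, hιc, hιsurj⟩ := exists_coords (S₀.image Prod.fst)
  have hproj : ∀ a ∈ Ax, ∃ t ∈ T₀, (g a).1 - t.1 ∈
      AddSubgroup.closure ((S₀.image Prod.fst : Finset (Fin m → ℤ)) : Set (Fin m → ℤ)) := by
    intro a ha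
    obtain ⟨t, ht, o, ⟨k, hk, hko⟩, hmem⟩ := hcovt (g a) (Finset.mem_image_of_mem g ha)
    refine ⟨t, ht, ?_⟩
    obtain ⟨p, hp, s, hs, hps⟩ := AddSubgroup.mem_sup.1 hmem
    have ho1 : o.1 = 0 := by
      apply fst_of_torsion (n := k) _ hko
      rintro rfl
      exact absurd hk (by decide)
    have hp1 : p.1 = 0 := by
      apply fst_of_torsion (n := Nat.card P) Nat.card_pos.ne'
      have : Nat.card P • (⟨p, hp⟩ : P) = 0 := card_nsmul_eq_zero'
      exact congrArg Subtype.val this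
    have hs1 : s.1 ∈ AddSubgroup.closure
        ((S₀.image Prod.fst : Finset (Fin m → ℤ)) : Set (Fin m → ℤ)) := by
      have e1 : s.1 ∈ (AddSubgroup.closure (S₀ : Set ((Fin m → ℤ) × (ann S)))).map
          (AddMonoidHom.fst (Fin m → ℤ) (ann S)) := ⟨s, hs, rfl⟩
      rw [AddMonoidHom.map_closure] at e1
      rw [Finset.coe_image]
      exact e1
    have e2 : (g a).1 - t.1 = s.1 := by
      have e3 := congrArg Prod.fst hps
      simp only [Prod.fst_add, Prod.fst_sub] at e3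
      rw [hp1, ho1, zero_add, sub_zero] at e3
      exact e3.symm
    rw [e2]
    exact hs1
  choose! τ hτT hτ using hproj
  obtain ⟨t, htT, hA', hA'ne⟩ := pigeon (f := τ) hτT hAxne
  set A' := Ax.filter (fun a => τ a = t) with hA'def
  have hA'Ax : A' ⊆ Ax := Finset.filter_subset _ _
  have hA'A : A' ⊆ A := hA'Ax.trans hAxA
  have hτ' : ∀ a ∈ A', (g a).1 - t.1 ∈
      AddSubgroup.closure ((S₀.image Prod.fst : Finset (Fin m → ℤ)) : Set (Fin m → ℤ)) := by
    intro a ha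
    rw [hA'def, Finset.mem_filter] at ha
    rw [← ha.2]
    exact hτ a ha.1
  -- Ruzsa covering
  have hT₀0 : (0 : ℝ) ≤ T₀.card := Nat.cast_nonneg _
  have hcov : ((A + A').card : ℝ) ≤ (K * X.card * T₀.card) * A'.card := by
    have e1 : ((A + A').card : ℝ) ≤ (A + A).card := by
      exact_mod_cast Finset.card_le_card (Finset.add_subset_add_left hA'A)
    have e2 : (A.card : ℝ) ≤ X.card * Ax.card := by exact_mod_cast hAx
    have e3 : (Ax.card : ℝ) ≤ T₀.card * A'.card := by exact_mod_cast hA'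
    calc ((A + A').card : ℝ) ≤ K * A.card := e1.trans hK
      _ ≤ K * (X.card * Ax.card) := mul_le_mul_of_nonneg_left e2 (by linarith)
      _ ≤ K * (X.card * (T₀.card * A'.card)) := by gcongr
      _ = _ := by ring
  obtain ⟨Y, hYA, hYcard, hY⟩ := Finset.ruzsa_covering_add hA'ne hcov
  -- the body
  have hN' : ∀ y, (N.comp ιR) y = 0 → y = 0 := by
    intro y hy
    exact hιR y (hN _ hy)
  have h2ρ : 0 < 2 * ρ := by linarith
  obtain ⟨hLfin, hLcard⟩ := card_LL_le hfin hN h1 h2ρ.le (by linarith : 2 * ρ ≤ 1 / 6)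
  refine ⟨d, {y | (N.comp ιR) y ≤ 2 * ρ}, ψ.comp ι, ann S, Y, ?_, symmBody_ball _ hN' h2ρ,
    hannfin, ?_, ?_, ?_⟩
  · have e1 : (d : ℝ) ≤ (S₀.card : ℝ) := by
      exact_mod_cast hdS.trans Finset.card_image_le
    exact e1.trans hS₀
  · have e1 : {c : Fin d → ℤ | (fun i => (c i : ℝ)) ∈ {y | (N.comp ιR) y ≤ 2 * ρ}}.ncard ≤
        (LL N (2 * ρ)).ncard := by
      apply Set.ncard_le_ncard_of_injOn ι _ hιinj.injOn hLfin
      intro c hc
      have hc' : N (ιR (fun i => (c i : ℝ))) ≤ 2 * ρ := hc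
      rw [hιc] at hc'
      exact hc'
    have e2 : {c : Fin d → ℤ | (fun i => (c i : ℝ)) ∈ {y | (N.comp ιR) y ≤ 2 * ρ}}.ncard *
        Nat.card (ann S) ≤ (bohr S (1 / 6)).ncard :=
      (Nat.mul_le_mul_right _ e1).trans hLcard
    refine le_trans ?_ hsize
    exact_mod_cast e2
  · refine hYcard.trans ?_
    have hKX : 0 ≤ K * X.card := by positivity
    calc K * X.card * T₀.card ≤ K * X.card * (K * X.card) ^ 185 :=
          mul_le_mul_of_nonneg_left hT₀ hKX
      _ = (K * X.card) ^ 186 := by ring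
  · intro a ha
    obtain ⟨y, hy, u, hu, hyu⟩ := Finset.mem_add.1 (hY ha)
    obtain ⟨v, hv, w, hw, hvw⟩ := Finset.mem_sub.1 hu
    have hv1 := hA'Ax hv
    have hw1 := hA'Ax hw
    have hdiff : (g v).1 - (g w).1 ∈
        AddSubgroup.closure ((S₀.image Prod.fst : Finset (Fin m → ℤ)) : Set (Fin m → ℤ)) := by
      have := AddSubgroup.sub_mem _ (hτ' v hv) (hτ' w hw)
      rwa [sub_sub_sub_cancel_right] at this
    obtain ⟨c, hc⟩ := hιsurj _ hdiff
    refine ⟨y, hy, c, ?_, (g v - g w).2, (g v - g w).2.2, ?_⟩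
    · show N (ιR (fun i => (c i : ℝ))) ≤ 2 * ρ
      rw [hιc, hc]
      have := LL_add N (hg v hv1).1 (hg w hw1).1
      rw [← two_mul] at this
      exact this
    · have e1 : F (g v - g w) = v - w := by
        rw [map_sub, hFg v hv1, hFg w hw1]; abel
      rw [hF] at e1
      have e2 : (g v - g w).1 = ι c := by rw [hc]; rfl
      rw [e2] at e1
      rw [AddMonoidHom.comp_apply, add_assoc, e1, hvw, hyu]

end Pool.Agent.Y354.PT
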