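import Pool.Agent.H112R2.Growth
set_option autoImplicit false

/-! A near-minimising pair for the functional with a fixed parameter `L`. -/

namespace Pool.Agent.Y354.PT

open Finset H112
open scoped Pointwise

variable {G : Type*} [AddCommGroup G]

/-- growth of a near-minimising pair, with a parameter `L` fixed in advance -/
theorem exists_good_pair_fixed {A : Finset G} [DecidableEq G] (hA : A.Nonempty) {K : ℝ}
    (hK : ((A + A).card : ℝ) ≤ K * A.card) {L J : ℕ} (hL1 : 1 ≤ L) :
    ∃ p₁ p₂ : AddMonoidAlgebra ℝ G, Law p₁ ∧ Law p₂ ∧ p₁.coeff.support ⊆ A ∧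
      p₂.coeff.support ⊆ A ∧
      Real.log A.card - 2 * L * Real.log (2 * K) ≤ H p₁ ∧
      Real.log A.card - 2 * L * Real.log (2 * K) ≤ H p₂ ∧
      ∀ j ≤ J, H ((p₁ * p₂) ^ (2 ^ j)) - (H p₁ + H p₂) / 2 ≤
        2 * Real.log (2 * K) * (j + 1) * (1 + 1 / (L : ℝ)) ^ j := by
  have hL0 : (0 : ℝ) < L := by exact_mod_cast hL1
  have hApos : (0 : ℝ) < A.card := by exact_mod_cast hA.card_pos
  have hAA : (A.card : ℝ) ≤ ((A + A).card : ℝ) := by
    exact_mod_cast Finset.card_le_card_add_left hA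
  have hK1 : 1 ≤ K := by
    by_contra h
    push Not at h
    nlinarith
  have hlogK : 0 ≤ Real.log K := Real.log_nonneg hK1
  have hlog2 : 0 < Real.log 2 := Real.log_pos (by norm_num)
  have hkap : Real.log (2 * K) = Real.log 2 + Real.log K :=
    Real.log_mul (by norm_num) (by linarith)
  set κ : ℝ := Real.log (2 * K) with hκ
  set ll : ℝ := Real.log A.card with hll
  set η : ℝ := 1 / L with hη
  have hη0 : 0 ≤ η := by positivity
  set δ : ℝ := Real.log 2 / 2 ^ (J + 2) with hδ
  have hδ0 : 0 < δ := by positivity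
  have hδJ : 2 ^ J * δ = Real.log 2 / 4 := by
    rw [hδ, pow_add]
    field_simp
    norm_num
  have h2J : (1 : ℝ) ≤ 2 ^ J := one_le_pow₀ (by norm_num)
  have hδ2 : δ ≤ Real.log 2 / 4 := by
    rw [← hδJ]
    nlinarith
  obtain ⟨p₁, p₂, h1, h2, h3, h4, hmin⟩ := exists_near_min hA hη0 hδ0
  have e1 : H p₁ ≤ ll := ent_le_log_card h1 h3
  have e2 : H p₂ ≤ ll := ent_le_log_card h2 h4
  have hUU : H (U A * U A) ≤ Real.log K + ll := by
    have h5 : H (U A * U A) ≤ Real.log (A + A).card :=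
      ent_le_log_card ((law_U hA).mul (law_U hA))
        (support_mul_subset support_unif support_unif fun a ha b hb => Finset.add_mem_add ha hb)
    have h6 : Real.log (A + A).card ≤ Real.log (K * A.card) :=
      Real.log_le_log (lt_of_lt_of_le hApos hAA) hK
    rw [Real.log_mul (by linarith) (by linarith)] at h6
    linarith
  have hcmp := hmin (U A) (U A) (law_U hA) (law_U hA) support_unif support_unif
  have hk0 : H p₁ ≤ H (p₁ * p₂) := H_le_mul h1 h2
  have hk1 : H p₂ ≤ H (p₁ * p₂) := by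
    rw [mul_comm]
    exact H_le_mul h2 h1
  have hmain : (H (p₁ * p₂) - (H p₁ + H p₂) / 2) + η / 2 * ((ll - H p₁) + (ll - H p₂)) ≤ κ := by
    unfold FF at hcmp
    rw [H_U hA] at hcmp
    rw [← hll] at hcmp
    rw [hkap]
    linarith
  have hηJ : η * L = 1 := by
    rw [hη]
    field_simp
  have hb1 : ll - H p₁ ≤ 2 * L * κ := by
    have : η / 2 * (ll - H p₁) ≤ κ := by
      have : 0 ≤ η / 2 * (ll - H p₂) := mul_nonneg (by linarith) (by linarith)
      linarith
    have h7 : 2 * L * (η / 2 * (ll - H p₁)) ≤ 2 * L * κ :=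
      mul_le_mul_of_nonneg_left this (by positivity)
    have h8 : 2 * L * (η / 2 * (ll - H p₁)) = (η * L) * (ll - H p₁) := by ring
    rw [h8, hηJ, one_mul] at h7
    exact h7
  have hb2 : ll - H p₂ ≤ 2 * L * κ := by
    have : η / 2 * (ll - H p₂) ≤ κ := by
      have : 0 ≤ η / 2 * (ll - H p₁) := mul_nonneg (by linarith) (by linarith)
      linarith
    have h7 : 2 * L * (η / 2 * (ll - H p₂)) ≤ 2 * L * κ :=
      mul_le_mul_of_nonneg_left this (by positivity)
    have h8 : 2 * L * (η / 2 * (ll - H p₂)) = (η * L) * (ll - H p₂) := by ring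
    rw [h8, hηJ, one_mul] at h7
    exact h7
  have hkk : H (p₁ * p₂) - (H p₁ + H p₂) / 2 ≤ κ := by
    have i1 : 0 ≤ η / 2 * ((ll - H p₁) + (ll - H p₂)) := mul_nonneg (by linarith) (by linarith)
    linarith
  have hκ2 : Real.log 2 ≤ κ := by linarith
  refine ⟨p₁, p₂, h1, h2, h3, h4, by linarith, by linarith, ?_⟩
  -- growth
  have hgrow : ∀ j ≤ J, H ((p₁ * p₂) ^ (2 ^ j)) - (H p₁ + H p₂) / 2 ≤
      2 * κ * (j + 1) * (1 + η) ^ j := by
    intro j
    induction j with
    | zero =>
      intro _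
      simp only [pow_zero, pow_one, Nat.cast_zero]
      linarith
    | succ j ih =>
      intro hj
      have ih' := ih (by omega)
      obtain ⟨m, hm⟩ : ∃ m, 2 ^ j = m + 1 := ⟨2 ^ j - 1, by
        have := Nat.one_le_two_pow (n := j)
        omega⟩
      have hs := growth_step hη0 h1 h2 h3 h4 hmin m
      rw [← hm] at hs
      have hm' : (m : ℝ) + 1 = 2 ^ j := by exact_mod_cast hm.symm
      rw [hm', ← pow_add] at hs
      have hp : 2 ^ j + 2 ^ j = 2 ^ (j + 1) := by ring
      rw [hp] at hs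
      have hle : (2 : ℝ) * 2 ^ j ≤ 2 ^ J := by
        have : (2 : ℝ) * 2 ^ j = 2 ^ (j + 1) := by ring
        rw [this]
        exact pow_le_pow_right₀ (by norm_num) hj
      have hd : (2 * 2 ^ j - 1) * δ ≤ κ := by
        have : (2 * 2 ^ j - 1) * δ ≤ 2 ^ J * δ :=
          mul_le_mul_of_nonneg_right (by linarith) hδ0.le
        rw [hδJ] at this
        linarith
      have hone : (1 : ℝ) ≤ (1 + η) ^ (j + 1) := one_le_pow₀ (by linarith)
      have hmul : (1 + η) * (H ((p₁ * p₂) ^ 2 ^ j) - (H p₁ + H p₂) / 2) ≤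
          (1 + η) * (2 * κ * (j + 1) * (1 + η) ^ j) :=
        mul_le_mul_of_nonneg_left ih' (by linarith)
      have hfin : (1 + η) * (2 * κ * (j + 1) * (1 + η) ^ j) + 2 * κ ≤
          2 * κ * ((j + 1 : ℕ) + 1) * (1 + η) ^ (j + 1) := by
        push_cast
        have h9 : 2 * κ * 1 ≤ 2 * κ * (1 + η) ^ (j + 1) :=
          mul_le_mul_of_nonneg_left hone (by linarith)
        have h10 : 2 * κ * ((j + 1 : ℝ) + 1) * (1 + η) ^ (j + 1) =
            (1 + η) * (2 * κ * (j + 1) * (1 + η) ^ j) + 2 * κ * (1 + η) ^ (j + 1) := by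
          rw [pow_succ]
          ring
        rw [h10]
        linarith
      linarith
  exact hgrow

end Pool.Agent.Y354.PT
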