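import Mathlib
set_option autoImplicit false

/-! Numerical facts for the choice of parameters. -/

namespace Pool.Agent.Y354.PT

theorem num_a (a : ℕ) : (a : ℝ) * 3 ^ a ≤ 3 * 4 ^ a := by
  have h1 : 1 + (a : ℝ) * (1 / 3) ≤ (1 + 1 / 3) ^ a :=
    one_add_mul_le_pow (by norm_num) a
  have h2 : (a : ℝ) ≤ 3 * (4 / 3) ^ a := by
    have e : (1 + 1 / 3 : ℝ) = 4 / 3 := by norm_num
    rw [e] at h1
    linarith
  calc (a : ℝ) * 3 ^ a ≤ (3 * (4 / 3) ^ a) * 3 ^ a := by gcongr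
    _ = 3 * (((4 / 3) ^ a) * 3 ^ a) := by ring
    _ = 3 * 4 ^ a := by rw [← mul_pow]; norm_num

theorem num_b (a l : ℕ) : ((2 * (a : ℝ) + l + 32)) * 3 ^ a ≤ 39 * (4 ^ a * 2 ^ l) := by
  have h1 := num_a a
  have h2 : (3 : ℝ) ^ a ≤ 4 ^ a := pow_le_pow_left₀ (by norm_num) (by norm_num) a
  have h3 : (l : ℝ) + 1 ≤ 2 ^ l := by
    have := one_add_mul_le_pow (show (-2 : ℝ) ≤ 1 by norm_num) l
    have e : (1 + 1 : ℝ) = 2 := by norm_num
    rw [e] at this
    linarith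
  have h4 : (0 : ℝ) < 4 ^ a := by positivity
  have hl0 : (0 : ℝ) ≤ l := Nat.cast_nonneg l
  calc ((2 * (a : ℝ) + l + 32)) * 3 ^ a = 2 * (a * 3 ^ a) + (l + 32) * 3 ^ a := by ring
    _ ≤ 2 * (3 * 4 ^ a) + (l + 32) * 4 ^ a := by gcongr
    _ = (l + 38) * 4 ^ a := by ring
    _ ≤ (39 * 2 ^ l) * 4 ^ a := by
        apply mul_le_mul_of_nonneg_right _ h4.le
        linarith
    _ = _ := by ring

theorem exp_six : Real.exp 6 ≤ 404 := by
  have h1 := Real.exp_one_lt_d9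
  have h2 : Real.exp 6 = Real.exp 1 ^ 6 := by
    rw [← Real.exp_nat_mul]; norm_num
  rw [h2]
  calc Real.exp 1 ^ 6 ≤ 2.7182818286 ^ 6 :=
        pow_le_pow_left₀ (Real.exp_pos _).le h1.le 6
    _ ≤ 404 := by norm_num

theorem exp_quarter : Real.exp (1 / 4) ≤ 13 / 10 := by
  have h1 := Real.exp_one_lt_d9
  have h2 : Real.exp 1 = Real.exp (1 / 4) ^ 4 := by
    rw [← Real.exp_nat_mul]; norm_num
  by_contra hcon
  push Not at hcon
  have h3 : (13 / 10 : ℝ) ^ 4 ≤ Real.exp (1 / 4) ^ 4 :=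
    pow_le_pow_left₀ (by norm_num) hcon.le 4
  rw [← h2] at h3
  norm_num at h3
  linarith

/-- the growth factor -/
theorem num_Q {L a l : ℕ} (hL : 16 ≤ L) (hl : l ≤ L) :
    (1 + 1 / (L : ℝ)) ^ (2 * (2 * a + l + 30) + 1) ≤ 404 * Real.exp (4 * a / L) := by
  have hL0 : (16 : ℝ) ≤ L := by exact_mod_cast hL
  have hL1 : (0 : ℝ) < L := by linarith
  have hl' : (l : ℝ) ≤ L := by exact_mod_cast hl
  have h1 : 1 + 1 / (L : ℝ) ≤ Real.exp (1 / L) := by
    have := Real.add_one_le_exp (1 / (L : ℝ))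
    linarith
  calc (1 + 1 / (L : ℝ)) ^ (2 * (2 * a + l + 30) + 1)
      ≤ (Real.exp (1 / L)) ^ (2 * (2 * a + l + 30) + 1) :=
        pow_le_pow_left₀ (by positivity) h1 _
    _ = Real.exp ((2 * l + 61) / L) * Real.exp (4 * a / L) := by
        rw [← Real.exp_nat_mul, ← Real.exp_add]
        congr 1
        push_cast
        field_simp
        ring
    _ ≤ Real.exp 6 * Real.exp (4 * a / L) := by
        apply mul_le_mul_of_nonneg_right _ (Real.exp_pos _).le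
        apply Real.exp_le_exp.2
        rw [div_le_iff₀ hL1]
        linarith
    _ ≤ 404 * Real.exp (4 * a / L) :=
        mul_le_mul_of_nonneg_right exp_six (Real.exp_pos _).le

theorem num_Q' {L a : ℕ} (hL : 16 ≤ L) : Real.exp (4 * a / L) ≤ (3 / 2) ^ a := by
  have hL0 : (16 : ℝ) ≤ L := by exact_mod_cast hL
  have hL1 : (0 : ℝ) < L := by linarith
  have ha : (0 : ℝ) ≤ a := Nat.cast_nonneg a
  calc Real.exp (4 * a / L) ≤ Real.exp ((a : ℝ) * (1 / 4)) := by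
        apply Real.exp_le_exp.2
        rw [div_le_iff₀ hL1]
        nlinarith
    _ = Real.exp (1 / 4) ^ a := by rw [Real.exp_nat_mul]
    _ ≤ (3 / 2) ^ a := by
        apply pow_le_pow_left₀ (Real.exp_pos _).le
        have := exp_quarter
        linarith

/-- the main growth estimate -/
theorem num_main {L a l : ℕ} (hL : 16 ≤ L) (hl : l ≤ L) {κ : ℝ}
    (hκ : κ ≤ 2 ^ a) :
    κ * (((2 * a + l + 30 : ℕ) : ℝ) + 2) * (1 + 1 / (L : ℝ)) ^ (2 * (2 * a + l + 30) + 1) ≤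
      15756 * (4 ^ a * 2 ^ l) := by
  have h1 := num_Q (a := a) hL hl
  have h2 := num_Q' (a := a) hL
  have h3 := num_b a l
  have h4 : (1 + 1 / (L : ℝ)) ^ (2 * (2 * a + l + 30) + 1) ≤ 404 * (3 / 2) ^ a :=
    h1.trans (by gcongr)
  have h5 : (0 : ℝ) ≤ ((2 * a + l + 30 : ℕ) : ℝ) + 2 := by positivity
  calc κ * (((2 * a + l + 30 : ℕ) : ℝ) + 2) * (1 + 1 / (L : ℝ)) ^ (2 * (2 * a + l + 30) + 1)
      ≤ 2 ^ a * (((2 * a + l + 30 : ℕ) : ℝ) + 2) * (404 * (3 / 2) ^ a) := by gcongr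
    _ = 404 * ((2 * (a : ℝ) + l + 32) * (2 ^ a * (3 / 2) ^ a)) := by push_cast; ring
    _ = 404 * ((2 * (a : ℝ) + l + 32) * 3 ^ a) := by rw [← mul_pow]; norm_num
    _ ≤ 404 * (39 * (4 ^ a * 2 ^ l)) := by gcongr
    _ = _ := by ring

/-- final volume estimate -/
theorem num_volume {L a l : ℕ} {ε κ lK : ℝ} (hε : 0 < ε) (hε1 : ε ≤ 1) (hL : 16 / ε ≤ L)
    (hL' : (L : ℝ) ≤ 17 / ε) (hl : l ≤ L) (hκ : 0.69 < κ) (ha : (2 : ℝ) ^ a ≤ 2 * (1 + κ))
    (hlK : lK ≤ κ) :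
    8 * Real.exp (2 * (4 * κ * (((2 * a + l + 30 : ℕ) : ℝ) + 1) *
      (1 + 1 / (L : ℝ)) ^ (2 * (2 * a + l + 30) + 1)) + 2 * lK + 2 * (2 * L * κ)) ≤
      Real.exp (600000 / ε * κ ^ (1 + ε)) := by
  have hκ0 : 0 < κ := by linarith
  have h16 : (16 : ℝ) ≤ 16 / ε := by
    rw [le_div_iff₀ hε]; linarith
  have hLr : (16 : ℝ) ≤ L := h16.trans hL
  have hLn : 16 ≤ L := by exact_mod_cast hLr
  have hL0 : (0 : ℝ) < L := by linarith
  have hlog2 : (0.69 : ℝ) < Real.log 2 := by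
    have := Real.log_two_gt_d9
    linarith
  obtain ⟨lam, hlam⟩ : ∃ lam : ℝ, lam = Real.log (1 + κ) := ⟨_, rfl⟩
  have hlam0 : 0 ≤ lam := by rw [hlam]; exact Real.log_nonneg (by linarith)
  -- bound on `a`
  have ha1 : (a : ℝ) * Real.log 2 ≤ Real.log 2 + lam := by
    have h1 := Real.log_le_log (by positivity) ha
    rw [Real.log_pow, Real.log_mul (by norm_num) (by linarith)] at h1
    rw [hlam]; exact h1
  have ha2 : (a : ℝ) ≤ 1 + 1.45 * lam := by
    have h1 : (a : ℝ) * Real.log 2 ≤ (1 + 1.45 * lam) * Real.log 2 := by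
      have : lam ≤ 1.45 * lam * Real.log 2 := by nlinarith
      linarith
    exact le_of_mul_le_mul_right h1 (by linarith)
  -- the growth factor
  have hQ1 := num_Q (a := a) hLn hl
  have hexp4 : Real.exp (4 * a / L) ≤ 13 / 10 * Real.exp (0.4 * ε * lam) := by
    have h1 : 4 * (a : ℝ) / L ≤ 1 / 4 + 0.4 * ε * lam := by
      rw [div_le_iff₀ hL0]
      have h2 : 16 ≤ L * ε := by
        rw [div_le_iff₀ hε] at hL
        linarith
      have h3 : 6.4 * lam ≤ 0.4 * ε * lam * L := by nlinarith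
      nlinarith
    calc Real.exp (4 * a / L) ≤ Real.exp (1 / 4 + 0.4 * ε * lam) := Real.exp_le_exp.2 h1
      _ = Real.exp (1 / 4) * Real.exp (0.4 * ε * lam) := Real.exp_add _ _
      _ ≤ _ := mul_le_mul_of_nonneg_right exp_quarter (Real.exp_pos _).le
  have hj : (((2 * a + l + 30 : ℕ) : ℝ) + 1) ≤ 55 / ε * Real.exp (0.6 * ε * lam) := by
    have h1 : 0.6 * ε * lam ≤ Real.exp (0.6 * ε * lam) := by
      have := Real.add_one_le_exp (0.6 * ε * lam)
      linarith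
    have h2 : 1 ≤ Real.exp (0.6 * ε * lam) := Real.one_le_exp (by positivity)
    have h3 : (l : ℝ) ≤ 17 / ε := (by exact_mod_cast hl : (l : ℝ) ≤ L).trans hL'
    have h4 : (1 : ℝ) ≤ 1 / ε := by rw [le_div_iff₀ hε]; linarith
    have h5 : 3 * lam ≤ 5 / ε * Real.exp (0.6 * ε * lam) := by
      have : 3 * lam = 5 / ε * (0.6 * ε * lam) := by field_simp; ring
      rw [this]
      exact mul_le_mul_of_nonneg_left h1 (by positivity)
    have h6 : 50 / ε ≤ 50 / ε * Real.exp (0.6 * ε * lam) :=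
      le_mul_of_one_le_right (by positivity) h2
    have h7 : (33 : ℝ) ≤ 33 / ε := by
      have : (33 : ℝ) / ε = 33 * (1 / ε) := by ring
      rw [this]; linarith
    have h8 : 50 / ε = 33 / ε + 17 / ε := by ring
    have h9 : 55 / ε * Real.exp (0.6 * ε * lam) = 5 / ε * Real.exp (0.6 * ε * lam) +
        50 / ε * Real.exp (0.6 * ε * lam) := by ring
    push_cast
    rw [h9]
    linarith
  -- the power
  have hpow : Real.exp (ε * lam) ≤ 2.5 * κ ^ ε := by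
    have h1 : lam ≤ Real.log 2.5 + Real.log κ := by
      rw [hlam, ← Real.log_mul (by norm_num) hκ0.ne']
      exact Real.log_le_log (by linarith) (by linarith)
    have h2 : 0 ≤ Real.log 2.5 := Real.log_nonneg (by norm_num)
    calc Real.exp (ε * lam) ≤ Real.exp (Real.log 2.5 + Real.log κ * ε) := by
          apply Real.exp_le_exp.2
          nlinarith
      _ = 2.5 * κ ^ ε := by
          rw [Real.exp_add, Real.exp_log (by norm_num), Real.rpow_def_of_pos hκ0]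
  have hb : 4 * κ * (((2 * a + l + 30 : ℕ) : ℝ) + 1) *
      (1 + 1 / (L : ℝ)) ^ (2 * (2 * a + l + 30) + 1) ≤ 288860 / ε * (κ * κ ^ ε) := by
    have h1 : (1 + 1 / (L : ℝ)) ^ (2 * (2 * a + l + 30) + 1) ≤
        404 * (13 / 10 * Real.exp (0.4 * ε * lam)) := hQ1.trans (by gcongr)
    calc 4 * κ * (((2 * a + l + 30 : ℕ) : ℝ) + 1) *
          (1 + 1 / (L : ℝ)) ^ (2 * (2 * a + l + 30) + 1)
        ≤ 4 * κ * (55 / ε * Real.exp (0.6 * ε * lam)) *
          (404 * (13 / 10 * Real.exp (0.4 * ε * lam))) := by gcongr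
      _ = 115544 / ε * κ * (Real.exp (0.6 * ε * lam) * Real.exp (0.4 * ε * lam)) := by ring
      _ = 115544 / ε * κ * Real.exp (ε * lam) := by
          rw [← Real.exp_add]; congr 2; ring
      _ ≤ 115544 / ε * κ * (2.5 * κ ^ ε) := by gcongr
      _ = 288860 / ε * (κ * κ ^ ε) := by ring
  have hone : κ ≤ 2.5 * (κ * κ ^ ε) := by
    have h1 : (1 : ℝ) ≤ 2.5 * κ ^ ε := (Real.one_le_exp (by positivity)).trans hpow
    nlinarith
  have h8 : (8 : ℝ) ≤ Real.exp (3.1 * κ) := by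
    have h5 : Real.exp (3 * Real.log 2) = 8 := by
      rw [show (3 : ℝ) * Real.log 2 = (3 : ℕ) * Real.log 2 by norm_num, Real.exp_nat_mul,
        Real.exp_log (by norm_num)]
      norm_num
    rw [← h5]
    apply Real.exp_le_exp.2
    have := Real.log_two_lt_d9
    linarith
  have hpos : 0 < κ * κ ^ ε := by positivity
  rw [Real.rpow_add hκ0, Real.rpow_one]
  refine (mul_le_mul_of_nonneg_right h8 (Real.exp_pos _).le).trans ?_
  rw [← Real.exp_add]
  apply Real.exp_le_exp.2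
  have h11 : 2 * (2 * (L : ℝ) * κ) ≤ 68 / ε * κ := by
    have : 68 / ε * κ = 4 * (17 / ε) * κ := by ring
    rw [this]
    nlinarith
  have h12 : (5.1 : ℝ) * κ ≤ 5.1 / ε * κ := by
    have h4 : (5.1 : ℝ) ≤ 5.1 / ε := by rw [le_div_iff₀ hε]; nlinarith
    exact mul_le_mul_of_nonneg_right h4 hκ0.le
  have h13 : 73.1 / ε * κ ≤ 73.1 / ε * (2.5 * (κ * κ ^ ε)) :=
    mul_le_mul_of_nonneg_left hone (by positivity)
  have h14 : 68 / ε * κ + 5.1 / ε * κ = 73.1 / ε * κ := by ring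
  have h15 : 2 * (288860 / ε * (κ * κ ^ ε)) + 73.1 / ε * (2.5 * (κ * κ ^ ε)) =
      577902.75 / ε * (κ * κ ^ ε) := by ring
  have h16' : 577902.75 / ε * (κ * κ ^ ε) ≤ 600000 / ε * (κ * κ ^ ε) := by
    apply mul_le_mul_of_nonneg_right _ hpos.le
    exact div_le_div_of_nonneg_right (by norm_num) hε.le
  linarith

end Pool.Agent.Y354.PT
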