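import Pool.Agent.H112R2.Final
import Pool.Agent.Y354.PT.Growth
import Pool.Agent.Y354.PT.Core
import Pool.Agent.Y354.PT.Lift
import Pool.Agent.Y354.PT.Num
set_option autoImplicit false

/-! Freiman-Ruzsa with polynomially many translates and slightly larger volume. -/

namespace Pool.Agent.Y354.PT

open Finset H112
open scoped Pointwise

/-- the theorem for finitely generated groups -/
theorem poly_translates_fg {G : Type*} [AddCommGroup G] [AddGroup.FG G] [DecidableEq G] {K ε : ℝ}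
    (hε : 0 < ε) (hε1 : ε ≤ 1)
    {A : Finset G} (hA : A.Nonempty) (hK : ((A + A).card : ℝ) ≤ K * A.card) (hK1 : 1 ≤ K) :
    ∃ (d : ℕ) (B : Set (Fin d → ℝ)) (ψ : (Fin d → ℤ) →+ G) (H₀ : AddSubgroup G) (T : Finset G),
      (d : ℝ) ≤ 36000 / ε * Real.log (2 * K) ∧ SymmBody B ∧ Finite H₀ ∧
      ({c : Fin d → ℤ | (fun i => (c i : ℝ)) ∈ B}.ncard * Nat.card H₀ : ℝ) ≤
        Real.exp (600000 / ε * Real.log (2 * K) ^ (1 + ε)) * A.card ∧
      (T.card : ℝ) ≤ (2 * K) ^ (14000 / ε) ∧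
      Covers B ψ H₀ T A := by
  classical
  obtain ⟨κ, hκ⟩ : ∃ κ : ℝ, κ = Real.log (2 * K) := ⟨_, rfl⟩
  have hK0 : (0 : ℝ) < K := by linarith
  have hκlog2 : Real.log 2 ≤ κ := by
    rw [hκ]; exact Real.log_le_log (by norm_num) (by linarith)
  have hκ69 : (0.69 : ℝ) < κ := lt_of_lt_of_le log_two_gt hκlog2
  have hκ0 : 0 < κ := by linarith
  have hlogK : Real.log K ≤ κ := by
    rw [hκ]; exact Real.log_le_log hK0 (by linarith)
  have hlogK0 : 0 ≤ Real.log K := Real.log_nonneg hK1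
  have hApos : (0 : ℝ) < A.card := by exact_mod_cast hA.card_pos
  -- parameters
  obtain ⟨n, hn1, hn2⟩ := exists_nat_pow_near (show (1 : ℝ) ≤ 1 + κ by linarith) (one_lt_two)
  obtain ⟨a, hadef⟩ : ∃ a : ℕ, a = n + 1 := ⟨_, rfl⟩
  have ha : κ ≤ 2 ^ a := by rw [hadef]; linarith
  have ha' : (2 : ℝ) ^ a ≤ 2 * (1 + κ) := by rw [hadef, pow_succ]; linarith
  obtain ⟨L, hLdef⟩ : ∃ L : ℕ, L = ⌈16 / ε⌉₊ := ⟨_, rfl⟩
  have hL : 16 / ε ≤ L := by rw [hLdef]; exact Nat.le_ceil _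
  have hL' : (L : ℝ) ≤ 17 / ε := by
    have h1 : (L : ℝ) ≤ 16 / ε + 1 := by
      rw [hLdef]; exact (Nat.ceil_lt_add_one (by positivity)).le
    have h4 : (1 : ℝ) ≤ 1 / ε := by rw [le_div_iff₀ hε]; linarith
    have h5 : 17 / ε = 16 / ε + 1 / ε := by ring
    linarith
  have h16 : (16 : ℝ) ≤ 16 / ε := by
    rw [le_div_iff₀ hε]; linarith
  have hLr : (16 : ℝ) ≤ L := h16.trans hL
  have hLn : 16 ≤ L := by exact_mod_cast hLr
  have hL0 : (0 : ℝ) < L := by linarith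
  obtain ⟨l', hl'1, hl'2⟩ := exists_nat_pow_near (show 1 ≤ L by omega) (show 1 < 2 by omega)
  obtain ⟨l, hldef⟩ : ∃ l : ℕ, l = l' + 1 := ⟨_, rfl⟩
  have hLl : L < 2 ^ l := by rw [hldef]; exact hl'2
  have hlL : l ≤ L := by
    have : l' < 2 ^ l' := Nat.lt_two_pow_self
    omega
  obtain ⟨j, hj⟩ : ∃ j : ℕ, j = 2 * a + l + 30 := ⟨_, rfl⟩
  obtain ⟨D, hD⟩ : ∃ D : ℝ, D = 2 * L * κ := ⟨_, rfl⟩
  obtain ⟨p₁, p₂, hp₁, hp₂, hs₁, hs₂, hH₁, hH₂, hgrow⟩ :=
    exists_good_pair_fixed hA hK (L := L) (J := 2 * j + 1) (by omega)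
  rw [← hκ] at hH₁ hH₂ hgrow
  rw [← hD] at hH₁
  obtain ⟨Q, hQ⟩ : ∃ Q : ℝ, Q = (1 + 1 / (L : ℝ)) ^ (2 * j + 1) := ⟨_, rfl⟩
  have hQ1 : 1 ≤ Q := by
    rw [hQ]; exact one_le_pow₀ (by have : 0 ≤ 1 / (L : ℝ) := by positivity
                                   linarith)
  have hmain : κ * ((j : ℝ) + 2) * Q ≤ 15756 * (4 ^ a * 2 ^ l) := by
    rw [hQ, hj]
    exact num_main hLn hlL ha
  have h2j : (2 : ℝ) ^ j = 2 ^ 30 * (4 ^ a * 2 ^ l) := by
    rw [hj, pow_add, pow_add, pow_mul]; norm_num; ring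
  have hW0 : (0 : ℝ) < 4 ^ a * 2 ^ l := by positivity
  have h2j0 : (0 : ℝ) < 2 ^ j := by positivity
  obtain ⟨b, hb⟩ : ∃ b : ℝ, b = 4 * κ * ((j : ℝ) + 1) * Q := ⟨_, rfl⟩
  have hg1 : H ((p₁ * p₂) ^ (2 ^ (2 * j + 1))) ≤ (H p₁ + H p₂) / 2 + b := by
    have h1 := hgrow (2 * j + 1) le_rfl
    rw [← hQ] at h1
    have h2 : 2 * κ * (((2 * j + 1 : ℕ) : ℝ) + 1) * Q = b := by
      rw [hb]; push_cast; ring
    rw [h2] at h1
    linarith
  obtain ⟨e, he⟩ : ∃ e : ℝ, e = 2 * κ * ((j : ℝ) + 2) * Q / 2 ^ j := ⟨_, rfl⟩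
  have hj0 : (0 : ℝ) ≤ j := Nat.cast_nonneg j
  have he0 : 0 < e := by rw [he]; positivity
  have hg2 : H ((p₁ * p₂) ^ (2 ^ (j + 1))) ≤ (H p₁ + H p₂) / 2 + 2 ^ j * e := by
    have h1 := hgrow (j + 1) (by omega)
    have h2 : 2 ^ j * e = 2 * κ * ((j : ℝ) + 2) * Q := by
      rw [he]; field_simp
    have h3 : (1 + 1 / (L : ℝ)) ^ (j + 1) ≤ Q := by
      rw [hQ]
      apply pow_le_pow_right₀ _ (by omega)
      have : 0 ≤ 1 / (L : ℝ) := by positivity
      linarith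
    have h4 : 2 * κ * (((j + 1 : ℕ) : ℝ) + 1) * (1 + 1 / (L : ℝ)) ^ (j + 1) ≤
        2 * κ * ((j : ℝ) + 2) * Q := by
      push_cast
      have h5 : (j : ℝ) + 1 + 1 = j + 2 := by ring
      rw [h5]
      gcongr
    rw [h2]
    linarith
  have hesmall : e ≤ 1 / 2304 := by
    rw [he, div_le_iff₀ h2j0, h2j]
    generalize (4 : ℝ) ^ a * 2 ^ l = W at hmain hW0 ⊢
    norm_num
    linarith
  have hρ12 : 4 * Real.sqrt e ≤ 1 / 12 := by
    have h1 : Real.sqrt e ≤ 1 / 48 := by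
      rw [Real.sqrt_le_left (by norm_num)]
      norm_num
      linarith
    linarith
  have hρ0 : 0 < 4 * Real.sqrt e := by positivity
  have hexpo : 2 * b + 2 * Real.log K + 2 * D + Real.log 4 ≤ 2 ^ j * Real.log 4 := by
    have hlog4 : (1 : ℝ) ≤ Real.log 4 := by
      have h1 : Real.log 4 = 2 * Real.log 2 := by
        rw [show (4 : ℝ) = 2 ^ 2 by norm_num, Real.log_pow]; norm_num
      have := Real.log_two_gt_d9
      rw [h1]; linarith
    have hlog4' : Real.log 4 ≤ 2 := by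
      have h1 : Real.log 4 = 2 * Real.log 2 := by
        rw [show (4 : ℝ) = 2 ^ 2 by norm_num, Real.log_pow]; norm_num
      have := Real.log_two_lt_d9
      rw [h1]; linarith
    have h1 : b ≤ 4 * (15756 * (4 ^ a * 2 ^ l)) := by
      have h2 : b ≤ 4 * (κ * ((j : ℝ) + 2) * Q) := by
        have h3 : 0 ≤ κ * Q := by positivity
        have h3' : 4 * (κ * ((j : ℝ) + 2) * Q) = b + 4 * (κ * Q) := by rw [hb]; ring
        rw [h3']; linarith
      linarith
    have h4a : (2 : ℝ) ^ a ≤ 4 ^ a := pow_le_pow_left₀ (by norm_num) (by norm_num) a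
    have h2l : (1 : ℝ) ≤ 2 ^ l := one_le_pow₀ (by norm_num)
    have h1a : (1 : ℝ) ≤ 4 ^ a := one_le_pow₀ (by norm_num)
    have hκW : κ ≤ 4 ^ a * 2 ^ l := by
      calc κ ≤ 4 ^ a := ha.trans h4a
        _ ≤ 4 ^ a * 2 ^ l := le_mul_of_one_le_right (by positivity) h2l
    have hDW : D ≤ 2 * (4 ^ a * 2 ^ l) := by
      have hLl' : (L : ℝ) ≤ 2 ^ l := by exact_mod_cast hLl.le
      rw [hD]
      calc 2 * (L : ℝ) * κ ≤ 2 * 2 ^ l * 4 ^ a := by
            have := ha.trans h4a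
            gcongr
        _ = _ := by ring
    have hW1 : (1 : ℝ) ≤ 4 ^ a * 2 ^ l := one_le_mul_of_one_le_of_one_le h1a h2l
    have h5 : (2 : ℝ) ^ j ≤ 2 ^ j * Real.log 4 := le_mul_of_one_le_right h2j0.le hlog4
    refine le_trans ?_ h5
    rw [h2j]
    generalize (4 : ℝ) ^ a * 2 ^ l = W at h1 hκW hDW hW1 ⊢
    norm_num
    linarith
  have h4 : (1 / 4 : ℝ) ^ (2 ^ j) ≤ Real.exp (-(2 * b + 2 * Real.log K + 2 * D)) / 4 := by
    have h1 : (1 / 4 : ℝ) ^ (2 ^ j) = Real.exp (-(2 ^ j * Real.log 4)) := by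
      have h2 : (1 / 4 : ℝ) = Real.exp (-Real.log 4) := by
        rw [Real.exp_neg, Real.exp_log (by norm_num)]; norm_num
      rw [h2, ← Real.exp_nat_mul]
      congr 1
      push_cast
      ring
    have h3 : Real.exp (-(2 * b + 2 * Real.log K + 2 * D)) / 4 =
        Real.exp (-(2 * b + 2 * Real.log K + 2 * D + Real.log 4)) := by
      rw [neg_add _ (Real.log 4), Real.exp_add, Real.exp_neg (Real.log 4),
        Real.exp_log (by norm_num), div_eq_mul_inv]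
    rw [h1, h3]
    apply Real.exp_le_exp.2
    linarith
  obtain ⟨S, X, hfin, hsize, hX, hXcard⟩ :=
    core_gen hA hK hK1 j hp₁ hp₂ hs₁ hs₂ hH₁ hg1 hg2 h4
  obtain ⟨m, N, ψ, hN, h1, h2, _⟩ := lattice_repr S hfin hρ0.le (by linarith)
  obtain ⟨d, B, ψ', H₀, T, hd, hB, hH₀, hvol, hT, hcov⟩ :=
    lift_cover S hfin hA hK hsize hρ0 hρ12 hX N ψ hN h1 h2
  -- bounds
  have hXpos : (1 : ℝ) ≤ X.card := by
    obtain ⟨a₀, ha₀⟩ := hA
    obtain ⟨x, hx, _⟩ := hX a₀ ha₀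
    exact_mod_cast Finset.card_pos.2 ⟨x, hx⟩
  have hKX1 : 1 ≤ K * X.card := one_le_mul_of_one_le_of_one_le hK1 hXpos
  have hKX : K * X.card ≤ Real.exp (74 / ε * κ) := by
    have h5 : K ≤ Real.exp κ := by
      rw [hκ, Real.exp_log (by linarith)]; linarith
    calc K * X.card ≤ K * (K * Real.exp (2 * D + 1)) :=
          mul_le_mul_of_nonneg_left hXcard hK0.le
      _ ≤ Real.exp κ * (Real.exp κ * Real.exp (2 * D + 1)) := by gcongr
      _ = Real.exp (κ + (κ + (2 * D + 1))) := by rw [← Real.exp_add, ← Real.exp_add]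
      _ ≤ Real.exp (74 / ε * κ) := by
          apply Real.exp_le_exp.2
          have h6 : 2 * D ≤ 68 / ε * κ := by
            have h7 : 68 / ε * κ = 4 * ((17 / ε) * κ) := by ring
            have h7' := mul_le_mul_of_nonneg_right hL' hκ0.le
            rw [hD, h7]
            linarith
          have h8 : (4 : ℝ) * κ ≤ 4 / ε * κ := by
            have h9 : (4 : ℝ) ≤ 4 / ε := by rw [le_div_iff₀ hε]; linarith
            exact mul_le_mul_of_nonneg_right h9 hκ0.le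
          have h10 : 74 / ε * κ = 68 / ε * κ + 4 / ε * κ + 2 / ε * κ := by ring
          have h11 : 0 ≤ 2 / ε * κ := by positivity
          rw [h10]
          linarith
  have hlogKX : Real.log (K * X.card) ≤ 74 / ε * κ := by
    rw [Real.log_le_iff_le_exp (by linarith)]
    exact hKX
  rw [← hκ]
  refine ⟨d, B, ψ', H₀, T, ?_, hB, hH₀, ?_, ?_, hcov⟩
  · have h5 : (1 : ℝ) ≤ 2 / ε * κ := by
      have h6 : (2 : ℝ) ≤ 2 / ε := by rw [le_div_iff₀ hε]; linarith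
      have h6' := mul_le_mul_of_nonneg_right h6 hκ0.le
      linarith
    have h7 : 36000 / ε * κ = 480 * (74 / ε * κ) + 240 * (2 / ε * κ) := by ring
    rw [h7]
    linarith
  · refine hvol.trans ?_
    apply mul_le_mul_of_nonneg_right _ hApos.le
    have h5 := num_volume hε hε1 hL hL' hlL hκ69 ha' hlogK
    rw [← hj, ← hQ, ← hb, ← hD] at h5
    exact h5
  · calc (T.card : ℝ) ≤ (K * X.card) ^ 186 := hT
      _ ≤ (Real.exp (74 / ε * κ)) ^ 186 := pow_le_pow_left₀ (by linarith) hKX _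
      _ = Real.exp (13764 / ε * κ) := by
          rw [← Real.exp_nat_mul]; congr 1; push_cast; ring
      _ ≤ Real.exp (κ * (14000 / ε)) := by
          apply Real.exp_le_exp.2
          have h5 : κ * (14000 / ε) = 13764 / ε * κ + 236 / ε * κ := by ring
          have h6 : 0 ≤ 236 / ε * κ := by positivity
          linarith
      _ = (2 * K) ^ (14000 / ε) := by
          rw [Real.rpow_def_of_pos (by linarith), ← hκ]

/-- the theorem in an arbitrary abelian group -/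
theorem poly_translates {G : Type*} [AddCommGroup G] [DecidableEq G] {K ε : ℝ}
    (hε : 0 < ε) (hε1 : ε ≤ 1)
    {A : Finset G} (hA : A.Nonempty) (hK : ((A + A).card : ℝ) ≤ K * A.card) :
    ∃ (d : ℕ) (B : Set (Fin d → ℝ)) (ψ : (Fin d → ℤ) →+ G) (H₀ : AddSubgroup G) (T : Finset G),
      (d : ℝ) ≤ 36000 / ε * Real.log (2 * K) ∧ SymmBody B ∧ Finite H₀ ∧
      ({c : Fin d → ℤ | (fun i => (c i : ℝ)) ∈ B}.ncard * Nat.card H₀ : ℝ) ≤
        Real.exp (600000 / ε * Real.log (2 * K) ^ (1 + ε)) * A.card ∧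
      (T.card : ℝ) ≤ (2 * K) ^ (14000 / ε) ∧
      Covers B ψ H₀ T A := by
  classical
  have hApos : (0 : ℝ) < A.card := by exact_mod_cast hA.card_pos
  have hK1 : 1 ≤ K := by
    have h1 : (A.card : ℝ) ≤ (A + A).card := by
      exact_mod_cast Finset.card_le_card_add_right hA
    nlinarith
  obtain ⟨Γ, hΓ⟩ : ∃ Γ : AddSubgroup G, Γ = AddSubgroup.closure (A : Set G) := ⟨_, rfl⟩
  obtain ⟨A', hA'⟩ := exists_model A Γ (fun a ha => by
    rw [hΓ]; exact AddSubgroup.subset_closure ha)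
  have hinj : Function.Injective Γ.subtype := Γ.subtype_injective
  have : AddGroup.FG Γ := by
    rw [AddGroup.fg_iff_addSubgroup_fg]
    exact ⟨A, hΓ.symm⟩
  have hA'ne : A'.Nonempty := by
    rw [← hA'] at hA; exact Finset.image_nonempty.1 hA
  have hcard : A'.card = A.card := by
    rw [← hA', Finset.card_image_of_injective _ hinj]
  have hcard2 : (A' + A').card = (A + A).card := by
    rw [← hA', ← Finset.image_add, Finset.card_image_of_injective _ hinj]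
  have hK' : ((A' + A').card : ℝ) ≤ K * A'.card := by rw [hcard2, hcard]; exact hK
  obtain ⟨d, B, ψ, H₀, T, hd, hB, hH₀, hvol, hT, hcov⟩ :=
    poly_translates_fg hε hε1 hA'ne hK' hK1
  refine ⟨d, B, Γ.subtype.comp ψ, H₀.map Γ.subtype, T.image Γ.subtype, hd, hB, ?_, ?_, ?_, ?_⟩
  · have : (H₀.map Γ.subtype : Set G).Finite := by
      rw [AddSubgroup.coe_map]
      exact (Set.toFinite (H₀ : Set Γ)).image _
    exact this.to_subtype
  · have h1 : Nat.card (H₀.map Γ.subtype) = Nat.card H₀ :=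
      Nat.card_congr (H₀.equivMapOfInjective Γ.subtype hinj).toEquiv.symm
    rw [h1, ← hcard]
    exact hvol
  · refine le_trans ?_ hT
    exact_mod_cast Finset.card_image_le
  · intro a ha
    rw [← hA'] at ha
    obtain ⟨a', ha', rfl⟩ := Finset.mem_image.1 ha
    obtain ⟨t, ht, c, hc, h, hh, e⟩ := hcov a' ha'
    refine ⟨Γ.subtype t, Finset.mem_image_of_mem _ ht, c, hc, Γ.subtype h, ⟨h, hh, rfl⟩, ?_⟩
    rw [e, map_add, map_add]
    rfl

end Pool.Agent.Y354.PT
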